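import Pool.Agent.helper64.OT.SpecG

set_option autoImplicit false

namespace Pool.Agent.OG

open Finset Pool.Agent.OT Pool.Agent.SPI Pool.Agent.helper85.PG
open scoped Pointwise

theorem ANG_pow {p : ℕ} [NeZero p] (t : ZMod p) (n : ℕ) : ps ((n : ZMod p) * t) = ps t ^ n := by
  unfold ps
  rw [← nsmul_eq_mul, AddChar.map_nsmul_eq_pow]

theorem ANG : ANG_stmt := by
  intro p _ d P m s v hP hm hs hv
  have hm0 : (0 : ℝ) < m := by exact_mod_cast hm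
  have hs' : ∀ y ∈ P 1, ‖ps (s * y) - 1‖ ≤ 1 / 16 := by
    unfold Sk at hs
    exact (mem_filter.1 hs).2
  have key : ∀ n : ℕ, n ≤ m → ‖ps (s * v) ^ n - 1‖ ≤ 1 / 16 := by
    intro n hn
    have h1 := hP.nat_mul_mem hv n
    have h2 : (n : ℝ) * (1 / (m : ℝ)) ≤ 1 := by
      rw [mul_one_div, div_le_one hm0]
      exact_mod_cast hn
    have h3 := hs' _ (hP.mono h2 h1)
    have h4 : s * ((n : ZMod p) * v) = (n : ZMod p) * (s * v) := by ring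
    rw [h4, ANG_pow] at h3
    exact h3
  set z := ps (s * v) with hz
  have hS : ‖(∑ n ∈ range m, z ^ n) - (m : ℂ)‖ ≤ m * (1 / 16) := by
    have h1 : (∑ n ∈ range m, z ^ n) - (m : ℂ) = ∑ n ∈ range m, (z ^ n - 1) := by
      rw [sum_sub_distrib]
      simp
    rw [h1]
    calc ‖∑ n ∈ range m, (z ^ n - 1)‖ ≤ ∑ n ∈ range m, ‖z ^ n - 1‖ := norm_sum_le _ _
      _ ≤ ∑ _n ∈ range m, (1 / 16 : ℝ) := sum_le_sum fun n hn => key n (mem_range.1 hn).le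
      _ = m * (1 / 16) := by rw [sum_const, card_range, nsmul_eq_mul]
  have hS2 : (m : ℝ) / 2 ≤ ‖∑ n ∈ range m, z ^ n‖ := by
    have h1 : ‖(m : ℂ)‖ ≤ ‖∑ n ∈ range m, z ^ n‖ + ‖(∑ n ∈ range m, z ^ n) - (m : ℂ)‖ := by
      have h2 : (m : ℂ) = (∑ n ∈ range m, z ^ n) - ((∑ n ∈ range m, z ^ n) - (m : ℂ)) := by ring
      calc ‖(m : ℂ)‖ = ‖(∑ n ∈ range m, z ^ n) - ((∑ n ∈ range m, z ^ n) - (m : ℂ))‖ := by rw [← h2]
        _ ≤ _ := norm_sub_le _ _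
    rw [Complex.norm_natCast] at h1
    linarith
  have hG : ‖∑ n ∈ range m, z ^ n‖ * ‖z - 1‖ ≤ 1 / 16 := by
    rw [← norm_mul, geom_sum_mul]
    exact key m le_rfl
  have h5 : (m : ℝ) / 2 * ‖z - 1‖ ≤ 1 / 16 := le_trans (mul_le_mul_of_nonneg_right hS2 (norm_nonneg _)) hG
  rw [le_div_iff₀ hm0]
  nlinarith [norm_nonneg (z - 1)]

end Pool.Agent.OG
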