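import Pool.Agent.helper64.OT.SpecW

/-!
# Row ot:RRB: Weil's bound for split polynomials
-/

set_option autoImplicit false

namespace Pool.Agent.OT

open Finset Polynomial Pool.Agent.helper82.Weil Pool.Agent.helper82.KL

/-- Row RRB -/
theorem RRB : RRB_stmt := by
  classical
  intro p _ K _ _ _ χ f hχ hf hsep hd hs
  obtain ⟨g, hg⟩ : ∃ g : K[X], g = f.map (algebraMap (ZMod p) K) := ⟨_, rfl⟩
  rw [← hg] at hs
  have hmon : g.Monic := by rw [hg]; exact hf.map _
  have hnd : g.roots.Nodup := by
    refine nodup_roots ?_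
    rw [hg]
    exact hsep.map
  have hdeg : g.natDegree = f.natDegree := by rw [hg]; exact natDegree_map _
  obtain ⟨S, hS⟩ : ∃ S : Finset K, S = g.roots.toFinset := ⟨_, rfl⟩
  have hcard : S.card = f.natDegree := by
    rw [hS, Multiset.toFinset_card_of_nodup hnd, ← hdeg]
    exact hs.natDegree_eq_card_roots.symm
  have hev : ∀ y : K, aeval y f = ∏ i : S, (-(i : K) + y) ^ (1 : ℕ) := by
    intro y
    have h3 := hs.eq_prod_roots_of_monic hmon
    have h0 : aeval y f = eval y g := by
      rw [hg, eval_map_algebraMap]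
    rw [h0]
    conv_lhs => rw [h3]
    rw [eval_multiset_prod, Multiset.map_map]
    have h4 : ∏ i : S, (-(i : K) + y) ^ (1 : ℕ) = ∏ i ∈ S, (y - i) := by
      rw [← Finset.prod_coe_sort S (fun i => y - i)]
      refine Finset.prod_congr rfl fun i _ => ?_
      rw [pow_one]; ring
    rw [h4, Finset.prod, hS, Multiset.toFinset_val, Multiset.dedup_eq_self.mpr hnd]
    congr 1
    apply Multiset.map_congr rfl
    intro z _
    simp
  have hne : Nonempty S := by
    rw [Finset.nonempty_coe_sort, ← Finset.card_pos, hcard]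
    omega
  obtain ⟨i₀⟩ := hne
  have key := weil_shift (normChar K χ) (normChar_ne_one χ hχ) (fun i : S => -(i : K)) (fun _ => 1) i₀ rfl (by
    intro i hi h
    apply hi
    exact Subtype.ext (neg_injective h))
  simp_rw [← hev] at key
  rw [Fintype.card_coe, hcard] at key
  refine key.trans (mul_le_mul_of_nonneg_right ?_ (Real.sqrt_nonneg _))
  exact_mod_cast Nat.sub_le _ _

end Pool.Agent.OT
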